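import Mathlib

namespace Pool.Agent.Results.MP_469b0e_pr.Ends

open Set Filter Topology
open scoped Classical

/-- Mean-value property for simple random walk at every vertex. -/
def Harmonic {V : Type} (G : SimpleGraph V) [G.LocallyFinite] (f : V → ℝ) : Prop :=
  ∀ x, f x = (∑ y ∈ G.neighborFinset x, f y) / G.degree x

/-- Lipschitz for the graph distance. -/
def Lip {V : Type} (G : SimpleGraph V) (f : V → ℝ) : Prop :=
  ∃ C : ℝ, ∀ x y, |f x - f y| ≤ C * G.dist x y

/-- At least two ends: removing some finite set leaves two infinite components. -/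
def TwoEnds {V : Type} (G : SimpleGraph V) : Prop :=
  ∃ K : Finset V, ∃ C D : G.ComponentCompl (K : Set V),
    C ≠ D ∧ C.supp.Infinite ∧ D.supp.Infinite

variable {V : Type} (G : SimpleGraph V) [G.LocallyFinite]

lemma dirichlet (hdeg : ∀ x, 0 < G.degree x) (F : Finset V) (A : Set V) :
    ∃ g : V → ℝ, (∀ x, 0 ≤ g x ∧ g x ≤ 1) ∧
      (∀ x ∈ F, ∑ y ∈ G.neighborFinset x, (g x - g y) = 0) ∧
      (∀ x, x ∉ F → g x = if x ∈ A then 1 else 0) := by
  have hb : ∀ (g : V → Icc (0:ℝ) 1) x,
      (∑ y ∈ G.neighborFinset x, (g y : ℝ)) / G.degree x ∈ Icc (0:ℝ) 1 := by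
    intro g x
    have hd : (0:ℝ) < G.degree x := by exact_mod_cast hdeg x
    refine ⟨div_nonneg (Finset.sum_nonneg fun y _ => (g y).2.1) hd.le, ?_⟩
    rw [div_le_one hd]
    calc ∑ y ∈ G.neighborFinset x, (g y : ℝ) ≤ ∑ _y ∈ G.neighborFinset x, (1:ℝ) :=
          Finset.sum_le_sum fun y _ => (g y).2.2
      _ = G.degree x := by simp
  have : Fact ((0:ℝ) ≤ 1) := ⟨zero_le_one⟩
  let Φ : (V → Icc (0:ℝ) 1) →o (V → Icc (0:ℝ) 1) :=
    { toFun := fun g x => if x ∈ F then ⟨_, hb g x⟩ else
        if x ∈ A then ⟨1, by simp⟩ else ⟨0, by simp⟩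
      monotone' := fun g h hgh x => by
        by_cases hx : x ∈ F
        · simp only [if_pos hx]
          have h1 : ∑ y ∈ G.neighborFinset x, (g y : ℝ) ≤ ∑ y ∈ G.neighborFinset x, (h y : ℝ) :=
            Finset.sum_le_sum fun y _ => hgh y
          exact Subtype.mk_le_mk.mpr (div_le_div_of_nonneg_right h1 (Nat.cast_nonneg _))
        · simp only [if_neg hx]; exact le_rfl }
  have hfix := OrderHom.map_lfp Φ
  set g := OrderHom.lfp Φ
  refine ⟨fun x => g x, fun x => (g x).2, fun x hx => ?_, fun x hx => ?_⟩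
  · have h1 : (g x : ℝ) = (∑ y ∈ G.neighborFinset x, (g y : ℝ)) / G.degree x := by
      conv_lhs => rw [← hfix]
      simp only [Φ, OrderHom.coe_mk, if_pos hx]
    have hd : (G.degree x : ℝ) ≠ 0 := by exact_mod_cast (hdeg x).ne'
    rw [Finset.sum_sub_distrib, Finset.sum_const, SimpleGraph.card_neighborFinset_eq_degree,
      nsmul_eq_mul]
    simp only
    rw [h1]
    field_simp
    ring
  · conv_lhs => rw [← hfix]
    simp only [Φ, OrderHom.coe_mk, if_neg hx]
    split_ifs <;> rfl

/-- Dirichlet form restricted to a finite set. -/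
noncomputable def En (N : Finset V) (φ g : V → ℝ) : ℝ :=
  ∑ u ∈ N, ∑ v ∈ N, if G.Adj u v then (φ u - φ v) * (g u - g v) else 0

omit [G.LocallyFinite] in
lemma En_sub (N : Finset V) (φ ψ g : V → ℝ) :
    En G N (fun x => φ x - ψ x) g = En G N φ g - En G N ψ g := by
  simp only [En, ← Finset.sum_sub_distrib]
  refine Finset.sum_congr rfl fun u _ => Finset.sum_congr rfl fun v _ => ?_
  split_ifs <;> ring

lemma En_zero (F N : Finset V) (hN : ∀ x ∈ F, ∀ y, G.Adj x y → y ∈ N) (φ g : V → ℝ)
    (hφ : ∀ x, x ∉ F → φ x = 0) (hg : ∀ x ∈ F, ∑ y ∈ G.neighborFinset x, (g x - g y) = 0) :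
    En G N φ g = 0 := by
  have h1 : ∑ u ∈ N, ∑ v ∈ N, (if G.Adj u v then φ u * (g u - g v) else 0) = 0 := by
    refine Finset.sum_eq_zero fun u _ => ?_
    by_cases hu : u ∈ F
    · rw [← Finset.sum_filter]
      have : N.filter (fun v => G.Adj u v) = G.neighborFinset u := by
        ext v
        simp only [Finset.mem_filter, SimpleGraph.mem_neighborFinset]
        exact ⟨fun h => h.2, fun h => ⟨hN u hu v h, h⟩⟩
      rw [this, ← Finset.mul_sum, hg u hu, mul_zero]
    · simp [hφ u hu]
  have h2 : ∑ u ∈ N, ∑ v ∈ N, (if G.Adj u v then φ v * (g v - g u) else 0) = 0 := by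
    rw [Finset.sum_comm]
    refine Eq.trans ?_ h1
    refine Finset.sum_congr rfl fun u _ => Finset.sum_congr rfl fun v _ => ?_
    simp only [G.adj_comm]
  have : En G N φ g = ∑ u ∈ N, ∑ v ∈ N, (if G.Adj u v then φ u * (g u - g v) else 0)
      + ∑ u ∈ N, ∑ v ∈ N, (if G.Adj u v then φ v * (g v - g u) else 0) := by
    simp only [En, ← Finset.sum_add_distrib]
    refine Finset.sum_congr rfl fun u _ => Finset.sum_congr rfl fun v _ => ?_
    split_ifs <;> ring
  rw [this, h1, h2, add_zero]

/-- A finite set together with its neighbours. -/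
noncomputable def nb (F : Finset V) : Finset V := F ∪ F.biUnion fun x => G.neighborFinset x

lemma mem_nb {F : Finset V} {x y : V} (hx : x ∈ F) (h : G.Adj x y) : y ∈ nb G F :=
  Finset.mem_union_right _ (Finset.mem_biUnion.mpr ⟨x, hx, by simpa using h⟩)

lemma mem_nb' {F : Finset V} {x : V} (hx : x ∈ F) : x ∈ nb G F := Finset.mem_union_left _ hx

lemma nb_mono {K F : Finset V} (h : K ⊆ F) : nb G K ⊆ nb G F :=
  Finset.union_subset_union h (Finset.biUnion_subset_biUnion_of_subset_left _ h)

lemma En_restrict (K F : Finset V) (hKF : K ⊆ F) (φ g : V → ℝ)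
    (hφ : ∀ u v, G.Adj u v → u ∉ K → v ∉ K → φ u = φ v) :
    En G (nb G F) φ g = En G (nb G K) φ g := by
  have key : ∀ u v, (u ∉ nb G K ∨ v ∉ nb G K) →
      (if G.Adj u v then (φ u - φ v) * (g u - g v) else 0) = 0 := by
    intro u v h
    split_ifs with huv
    · have hu : u ∉ K := fun hu => h.elim (fun h => h (mem_nb' G hu)) (fun h => h (mem_nb G hu huv))
      have hv : v ∉ K := fun hv =>
        h.elim (fun h => h (mem_nb G hv huv.symm)) (fun h => h (mem_nb' G hv))
      rw [hφ u v huv hu hv, sub_self, zero_mul]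
    · rfl
  unfold En
  symm
  rw [← Finset.sum_subset (nb_mono G hKF)
    (fun u _ hu => Finset.sum_eq_zero fun v _ => key u v (Or.inl hu))]
  refine Finset.sum_congr rfl fun u _ => ?_
  exact Finset.sum_subset (nb_mono G hKF) (fun v _ hv => key u v (Or.inr hv))

lemma current (hdeg : ∀ x, 0 < G.degree x) (hc : G.Connected) (K F : Finset V) (hKF : K ⊆ F)
    (A : Set V) (hA : ∀ u v, G.Adj u v → u ∉ K → v ∉ K → (u ∈ A ↔ v ∈ A))
    (hA1 : A.Infinite) (hA2 : Aᶜ.Infinite) (o : V) :
    ∃ f : V → ℝ, f o = 0 ∧ (∀ x y, G.Adj x y → f x - f y ≤ 1) ∧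
      (∀ x ∈ F, ∑ y ∈ G.neighborFinset x, (f x - f y) = 0) ∧
      En G (nb G K) (fun x => if x ∈ A then 1 else 0) f = 1 := by
  obtain ⟨g, hg0, hg1, hg2⟩ := dirichlet G hdeg F A
  set J := En G (nb G K) (fun x => if x ∈ A then 1 else 0) g with hJ
  have hJ' : En G (nb G F) (fun x => if x ∈ A then 1 else 0) g = J :=
    En_restrict G K F hKF _ g fun u v huv hu hv => by simp only [hA u v huv hu hv]
  have hedge : ∀ x y, G.Adj x y → g y < g x → g x - g y ≤ J := by
    intro x y hxy hlt
    have hxF : x ∈ F ∨ y ∈ F := by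
      by_contra h
      push Not at h
      rw [hg2 x h.1, hg2 y h.2] at hlt
      simp only [hA x y hxy (fun h' => h.1 (hKF h')) (fun h' => h.2 (hKF h'))] at hlt
      exact lt_irrefl _ hlt
    have hxN : x ∈ nb G F := hxF.elim (mem_nb' G) (fun h => mem_nb G h hxy.symm)
    have hyN : y ∈ nb G F := hxF.elim (fun h => mem_nb G h hxy) (mem_nb' G)
    have h0 := En_zero G F (nb G F) (fun x hx y h => mem_nb G hx h)
      (fun z => (if g x ≤ g z then (1:ℝ) else 0) - (if z ∈ A then 1 else 0)) g (by
        intro z hz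
        rw [hg2 z hz]
        by_cases hzA : z ∈ A
        · simp [hzA, (hg0 x).2]
        · have : ¬ g x ≤ 0 := by linarith [(hg0 y).1]
          simp [hzA, this]) hg1
    rw [En_sub, hJ', sub_eq_zero] at h0
    rw [← h0]
    have hnn : ∀ u v, 0 ≤ (if G.Adj u v then ((if g x ≤ g u then (1:ℝ) else 0)
        - (if g x ≤ g v then 1 else 0)) * (g u - g v) else 0) := by
      intro u v
      split_ifs with h1 h2 h3 h3
      · simp
      · push Not at h3; nlinarith
      · push Not at h2; nlinarith
      · simp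
      · exact le_rfl
    refine le_trans ?_ (Finset.single_le_sum (fun u _ => Finset.sum_nonneg fun v _ => hnn u v) hxN)
    refine le_trans ?_ (Finset.single_le_sum (fun v _ => hnn x v) hyN)
    rw [if_pos hxy, if_pos le_rfl, if_neg (not_le.mpr hlt)]
    linarith
  have hJpos : 0 < J := by
    by_contra hle
    have hadj : ∀ x y, G.Adj x y → g x = g y := by
      intro x y hxy
      by_contra hne
      rcases lt_or_gt_of_ne hne with h | h
      · have := hedge y x hxy.symm h; linarith
      · have := hedge x y hxy h; linarith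
    have hall : ∀ x y, g x = g y := by
      intro x y
      obtain ⟨p⟩ := hc.preconnected x y
      induction p with
      | nil => rfl
      | cons h _ ih => exact (hadj _ _ h).trans ih
    obtain ⟨a, ha, haF⟩ := hA1.exists_notMem_finset F
    obtain ⟨b, hb, hbF⟩ := hA2.exists_notMem_finset F
    have := hall a b
    rw [hg2 a haF, hg2 b hbF, if_pos ha, if_neg hb] at this
    exact one_ne_zero this
  refine ⟨fun x => (g x - g o) / J, by simp, fun x y hxy => ?_, fun x hx => ?_, ?_⟩
  · rw [← sub_div, div_le_one hJpos]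
    by_cases h : g y < g x
    · have := hedge x y hxy h; linarith
    · linarith
  · have : ∀ y, (g x - g o) / J - (g y - g o) / J = (g x - g y) / J := fun y => by ring
    simp only [this]
    rw [← Finset.sum_div, hg1 x hx, zero_div]
  · have : En G (nb G K) (fun x => if x ∈ A then 1 else 0) (fun x => (g x - g o) / J) = J / J := by
      conv_rhs => rw [hJ]
      rw [← hJ]
      conv_rhs => enter [1]; rw [hJ]
      simp only [En, Finset.sum_div]
      refine Finset.sum_congr rfl fun u _ => Finset.sum_congr rfl fun v _ => ?_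
      split_ifs <;> ring
    rw [this, div_self hJpos.ne']

omit [G.LocallyFinite] in
lemma lip_dist (hc : G.Connected) (f : V → ℝ) (hf : ∀ x y, G.Adj x y → f x - f y ≤ 1) (x y : V) :
    |f x - f y| ≤ G.dist x y := by
  obtain ⟨p, hp⟩ := hc.exists_walk_length_eq_dist x y
  rw [← hp]
  clear hp
  induction p with
  | nil => simp
  | cons h q ih =>
    have h1 := hf _ _ h
    have h2 := hf _ _ h.symm
    rw [abs_le] at ih ⊢
    simp only [SimpleGraph.Walk.length_cons]
    push_cast
    constructor <;> linarith [ih.1, ih.2]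

theorem result (V : Type) (G : SimpleGraph V) [G.LocallyFinite] [Infinite V] (hc : G.Connected)
    (hE : TwoEnds G) : ∃ f : V → ℝ, Harmonic G f ∧ Lip G f ∧ ∃ x y, f x ≠ f y := by
  obtain ⟨K, C, D, hCD, hC, hD⟩ := hE
  have hdeg : ∀ x, 0 < G.degree x := fun x => hc.preconnected.degree_pos_of_nontrivial x
  have hA : ∀ u v, G.Adj u v → u ∉ K → v ∉ K → (u ∈ C.supp ↔ v ∈ C.supp) := by
    intro u v huv hu hv
    exact ⟨fun h => SimpleGraph.ComponentCompl.mem_of_adj u v h hv huv,
      fun h => SimpleGraph.ComponentCompl.mem_of_adj v u h hu huv.symm⟩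
  have hA2 : (C.supp)ᶜ.Infinite := by
    refine hD.mono fun x hx hx' => ?_
    exact Set.disjoint_left.mp (SimpleGraph.ComponentCompl.pairwise_disjoint hCD) hx' hx
  obtain ⟨o⟩ := hc.nonempty
  choose f hf0 hf1 hf2 hf3 using fun F : Finset V =>
    current G hdeg hc K (K ∪ F) Finset.subset_union_left C.supp hA hC hA2 o
  let 𝒰 : Ultrafilter (Finset V) := Ultrafilter.of atTop
  have hlim : ∀ x, ∃ a : ℝ, Tendsto (fun F => f F x) 𝒰 (𝓝 a) := by
    intro x
    have hmem : ∀ F, f F x ∈ Icc (-(G.dist x o : ℝ)) (G.dist x o) := by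
      intro F
      have := lip_dist G hc (f F) (hf1 F) x o
      rw [hf0, sub_zero] at this
      exact abs_le.mp this
    obtain ⟨a, _, ha⟩ := isCompact_Icc.ultrafilter_le_nhds (𝒰.map fun F => f F x)
      (by rw [Ultrafilter.coe_map, le_principal_iff, mem_map]
          exact Filter.Eventually.of_forall hmem)
    exact ⟨a, ha⟩
  choose g hg using hlim
  have hg1 : ∀ x y, G.Adj x y → g x - g y ≤ 1 := fun x y h =>
    le_of_tendsto' ((hg x).sub (hg y)) fun F => hf1 F x y h
  refine ⟨g, fun x => ?_, ⟨1, fun x y => by rw [one_mul]; exact lip_dist G hc g hg1 x y⟩, ?_⟩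
  · have h1 : Tendsto (fun F => ∑ y ∈ G.neighborFinset x, (f F x - f F y)) 𝒰
        (𝓝 (∑ y ∈ G.neighborFinset x, (g x - g y))) :=
      tendsto_finsetSum _ fun y _ => (hg x).sub (hg y)
    have h2 : ∀ᶠ F in (𝒰 : Filter (Finset V)), ∑ y ∈ G.neighborFinset x, (f F x - f F y) = 0 := by
      refine Filter.Eventually.filter_mono (Ultrafilter.of_le atTop) ?_
      filter_upwards [eventually_ge_atTop {x}] with F hF
      exact hf2 F x (Finset.mem_union_right _ (hF (Finset.mem_singleton_self x)))
    have h3 := tendsto_nhds_unique h1 (tendsto_const_nhds.congr' (h2.mono fun F h => h.symm))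
    have hd : (G.degree x : ℝ) ≠ 0 := by exact_mod_cast (hdeg x).ne'
    rw [Finset.sum_sub_distrib, Finset.sum_const, SimpleGraph.card_neighborFinset_eq_degree,
      nsmul_eq_mul] at h3
    field_simp
    linarith
  · by_contra hcon
    push Not at hcon
    have h1 : Tendsto (fun F => En G (nb G K) (fun x => if x ∈ C.supp then 1 else 0) (f F)) 𝒰
        (𝓝 (En G (nb G K) (fun x => if x ∈ C.supp then 1 else 0) g)) := by
      refine tendsto_finsetSum _ fun u _ => tendsto_finsetSum _ fun v _ => ?_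
      by_cases huv : G.Adj u v
      · simp only [if_pos huv]
        exact ((hg u).sub (hg v)).const_mul _
      · simp only [if_neg huv]
        exact tendsto_const_nhds
    simp only [hf3] at h1
    have h2 := tendsto_nhds_unique h1 tendsto_const_nhds
    have h3 : En G (nb G K) (fun x => if x ∈ C.supp then 1 else 0) g = 0 := by
      refine Finset.sum_eq_zero fun u _ => Finset.sum_eq_zero fun v _ => ?_
      rw [hcon u v, sub_self, mul_zero, ite_self]
    rw [h3] at h2
    exact zero_ne_one h2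

end Pool.Agent.Results.MP_469b0e_pr.Ends
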