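import Mathlib

namespace Pool.Agent.Results.MP_469b0e_pr.Transient

open Set Filter Topology
open scoped Classical

/-- Mean-value property for simple random walk at every vertex. -/
def Harmonic {V : Type} (G : SimpleGraph V) [G.LocallyFinite] (f : V → ℝ) : Prop :=
  ∀ x, f x = (∑ y ∈ G.neighborFinset x, f y) / G.degree x

/-- Lipschitz, in the form: bounded differences along edges. -/
def Lip {V : Type} (G : SimpleGraph V) (f : V → ℝ) : Prop :=
  ∃ C : ℝ, ∀ x y, G.Adj x y → |f x - f y| ≤ C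

/-- `hit G x n y`: probability that simple random walk started at `y` visits `x` at one of the
times `0, …, n`. -/
noncomputable def hit {V : Type} (G : SimpleGraph V) [G.LocallyFinite] (x : V) : ℕ → V → ℝ
  | 0, y => if y = x then 1 else 0
  | n + 1, y => if y = x then 1 else (∑ z ∈ G.neighborFinset y, hit G x n z) / G.degree y

/-- Transience: from every vertex `x`, the probabilities of returning to `x` at one of the times
`1, …, n + 1` are bounded by some `c < 1`. -/
def IsTransient {V : Type} (G : SimpleGraph V) [G.LocallyFinite] : Prop :=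
  ∀ x, ∃ c < (1:ℝ), ∀ n, (∑ z ∈ G.neighborFinset x, hit G x n z) / G.degree x ≤ c

section general

variable {V : Type} (G : SimpleGraph V) [G.LocallyFinite]

def H0 (f : V → ℝ) : Prop := ∀ x, ∑ y ∈ G.neighborFinset x, (f y - f x) = 0

lemma H0_of (hdeg : ∀ x, 0 < G.degree x) {f : V → ℝ} (hf : Harmonic G f) : H0 G f := by
  intro x
  have hd : (G.degree x : ℝ) ≠ 0 := by exact_mod_cast (hdeg x).ne'
  have := hf x
  rw [Finset.sum_sub_distrib, Finset.sum_const, SimpleGraph.card_neighborFinset_eq_degree,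
    nsmul_eq_mul, this]
  field_simp
  ring

lemma H0_diff (T : V ≃ V) (hT : ∀ v w, G.Adj (T v) (T w) ↔ G.Adj v w) {f : V → ℝ}
    (hf : H0 G f) : H0 G (fun x => f (T x) - f x) := by
  intro x
  have h1 : ∑ y ∈ G.neighborFinset x, (f (T y) - f (T x))
      = ∑ y ∈ G.neighborFinset (T x), (f y - f (T x)) :=
    Finset.sum_equiv T (fun y => by simp [hT]) (fun y _ => rfl)
  rw [hf (T x)] at h1
  have h2 := hf x
  have : ∑ y ∈ G.neighborFinset x, (f (T y) - f y - (f (T x) - f x))
      = ∑ y ∈ G.neighborFinset x, (f (T y) - f (T x)) - ∑ y ∈ G.neighborFinset x, (f y - f x) := by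
    rw [← Finset.sum_sub_distrib]
    exact Finset.sum_congr rfl fun y _ => by ring
  rw [this, h1, h2, sub_zero]

lemma near_max (D : ℕ) (hD : ∀ x, G.degree x ≤ D) {h : V → ℝ} (hh : H0 G h) (M : ℝ)
    (hM : ∀ x, h x ≤ M) {v w : V} (hvw : G.Adj v w) : M - h w ≤ D * (M - h v) := by
  have h1 : ∑ y ∈ G.neighborFinset v, (M - h y) = G.degree v * (M - h v) := by
    have h2 := hh v
    rw [Finset.sum_sub_distrib, Finset.sum_const, SimpleGraph.card_neighborFinset_eq_degree,
      nsmul_eq_mul] at h2 ⊢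
    linarith
  have h3 : M - h w ≤ ∑ y ∈ G.neighborFinset v, (M - h y) :=
    Finset.single_le_sum (f := fun y => M - h y) (fun y _ => sub_nonneg.mpr (hM y))
      (by simpa using hvw)
  have h4 : (G.degree v : ℝ) ≤ D := by exact_mod_cast hD v
  nlinarith [hM v]

lemma diff_nonpos (D : ℕ) (hD : ∀ x, G.degree x ≤ D) (T : V ≃ V)
    (hT : ∀ v w, G.Adj (T v) (T w) ↔ G.Adj v w) (hadj : ∀ v, G.Adj v (T v))
    {g : V → ℝ} (hg : H0 G g) (C : ℝ) (hC : ∀ x, |g x| ≤ C) (x : V) : g (T x) - g x ≤ 0 := by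
  set h : V → ℝ := fun x => g (T x) - g x with hh
  have hh0 : H0 G h := H0_diff G T hT hg
  have hb : BddAbove (range h) := ⟨2 * C, by
    rintro _ ⟨y, rfl⟩
    have h1 := abs_le.mp (hC y)
    have h2 := abs_le.mp (hC (T y))
    simp only [hh]; linarith⟩
  set M := sSup (range h) with hM
  have hle : ∀ y, h y ≤ M := fun y => le_csSup hb ⟨y, rfl⟩
  by_contra hpos
  have hMpos : 0 < M := lt_of_lt_of_le (not_le.mp hpos) (hle x)
  obtain ⟨k, hk⟩ := exists_nat_gt (4 * C / M)
  have hD1 : (1:ℝ) ≤ D := by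
    have : 0 < G.degree x := (G.degree_pos_iff_exists_adj x).mpr ⟨_, hadj x⟩
    exact_mod_cast lt_of_lt_of_le this (hD x)
  have hε : 0 < M / 2 / D ^ k := by positivity
  obtain ⟨_, ⟨v, rfl⟩, hv⟩ := exists_lt_of_lt_csSup (s := range h) ⟨_, x, rfl⟩ (sub_lt_self M hε)
  have h1 : ∀ j : ℕ, M - h (T^[j] v) ≤ D ^ j * (M - h v) := by
    intro j
    induction j with
    | zero => simp
    | succ j ih =>
      rw [Function.iterate_succ_apply']
      have := near_max G D hD hh0 M hle (hadj (T^[j] v))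
      rw [pow_succ]
      nlinarith
  have h2 : ∀ j : ℕ, j ≤ k → j * (M / 2) ≤ g (T^[j] v) - g v := by
    intro j
    induction j with
    | zero => simp
    | succ j ih =>
      intro hj
      have h3 := ih (by omega)
      have h4 := h1 j
      have h5 : (D:ℝ) ^ j ≤ D ^ k := pow_le_pow_right₀ hD1 (by omega)
      have h6 : (D:ℝ) ^ k * (M / 2 / D ^ k) = M / 2 := by field_simp
      have h7 : (D:ℝ) ^ j * (M - h v) ≤ D ^ k * (M / 2 / D ^ k) :=
        mul_le_mul h5 (by linarith) (sub_nonneg.mpr (hle v)) (by positivity)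
      rw [Function.iterate_succ_apply']
      simp only [hh] at h4
      push_cast
      linarith
  have h3 := h2 k le_rfl
  have h4 := abs_le.mp (hC v)
  have h5 := abs_le.mp (hC (T^[k] v))
  rw [div_lt_iff₀ hMpos] at hk
  linarith

lemma invariant (D : ℕ) (hD : ∀ x, G.degree x ≤ D) (T : V ≃ V)
    (hT : ∀ v w, G.Adj (T v) (T w) ↔ G.Adj v w) (hadj : ∀ v, G.Adj v (T v))
    (hper : ∀ v, ∃ N : ℕ, 0 < N ∧ T^[N] v = v)
    {f : V → ℝ} (hf : H0 G f) (hL : Lip G f) (x : V) : f (T x) = f x := by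
  obtain ⟨C, hC⟩ := hL
  set g : V → ℝ := fun x => f (T x) - f x with hg
  have hg0 : H0 G g := H0_diff G T hT hf
  have hgC : ∀ x, |g x| ≤ C := fun x => hC _ _ (hadj x).symm
  have h1 := diff_nonpos G D hD T hT hadj hg0 C hgC
  have h2 := diff_nonpos G D hD T hT hadj (g := fun x => - g x) (fun x => by
    have := hg0 x
    simp only [Finset.sum_sub_distrib, Finset.sum_neg_distrib] at this ⊢
    linarith) C (fun x => by rw [abs_neg]; exact hgC x)
  have h3 : ∀ y, g (T y) = g y := fun y => by linarith [h1 y, h2 y]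
  have h4 : ∀ j : ℕ, g (T^[j] x) = g x := by
    intro j
    induction j with
    | zero => rfl
    | succ j ih => rw [Function.iterate_succ_apply', h3, ih]
  have h5 : ∀ j : ℕ, f (T^[j] x) - f x = j * g x := by
    intro j
    induction j with
    | zero => simp
    | succ j ih =>
      rw [Function.iterate_succ_apply']
      have := h4 j
      simp only [hg] at this ih ⊢
      push_cast
      linarith
  obtain ⟨N, hN, hNx⟩ := hper x
  have h6 := h5 N
  rw [hNx, sub_self] at h6
  have h7 : (N:ℝ) ≠ 0 := by exact_mod_cast hN.ne'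
  have h8 : g x = 0 := (mul_eq_zero.mp h6.symm).resolve_left h7
  simp only [hg] at h8
  linarith

lemma hit_le (hdeg : ∀ x, 0 < G.degree x) (x : V) (u : V → ℝ) (hu0 : ∀ y, 0 ≤ u y) (hux : u x = 1)
    (hu : ∀ y, ∑ z ∈ G.neighborFinset y, (u z - u y) ≤ 0) (n : ℕ) (y : V) : hit G x n y ≤ u y := by
  induction n generalizing y with
  | zero =>
    simp only [hit]
    split_ifs with h
    · rw [h, hux]
    · exact hu0 y
  | succ n ih =>
    simp only [hit]
    split_ifs with h
    · rw [h, hux]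
    · have hd : (0:ℝ) < G.degree y := by exact_mod_cast hdeg y
      rw [div_le_iff₀ hd]
      have h1 := hu y
      rw [Finset.sum_sub_distrib, Finset.sum_const, SimpleGraph.card_neighborFinset_eq_degree,
        nsmul_eq_mul] at h1
      have h2 : ∑ z ∈ G.neighborFinset y, hit G x n z ≤ ∑ z ∈ G.neighborFinset y, u z :=
        Finset.sum_le_sum fun z _ => ih z
      linarith

end general

abbrev W : Type := Σ n : ℕ, ZMod (2 ^ (n + 2))

instance (n : ℕ) : NeZero (2 ^ (n + 2)) := ⟨by positivity⟩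

def T : W ≃ W := Equiv.sigmaCongrRight fun _ => Equiv.addRight 1

def red (n : ℕ) : ZMod (2 ^ (n + 1 + 2)) →+* ZMod (2 ^ (n + 2)) :=
  ZMod.castHom (pow_dvd_pow 2 (by omega)) _

def P : W → W
  | ⟨0, x⟩ => ⟨0, x⟩
  | ⟨n + 1, x⟩ => ⟨n, red n x⟩

lemma T_apply (n : ℕ) (x : ZMod (2 ^ (n + 2))) : T ⟨n, x⟩ = ⟨n, x + 1⟩ := rfl

lemma PT (v : W) : P (T v) = T (P v) := by
  obtain ⟨n, x⟩ := v
  cases n with
  | zero => rfl
  | succ n => simp only [T_apply, P, map_add, map_one]

def G : SimpleGraph W := SimpleGraph.fromRel fun v w => w = T v ∨ w = P v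

lemma G_adj (v w : W) : G.Adj v w ↔ v ≠ w ∧ ((w = T v ∨ w = P v) ∨ (v = T w ∨ v = P w)) :=
  SimpleGraph.fromRel_adj _ _ _

lemma G_T (v w : W) : G.Adj (T v) (T w) ↔ G.Adj v w := by
  simp only [G_adj, PT, ne_eq, T.injective.eq_iff]

lemma one_ne (n : ℕ) : (1 : ZMod (2 ^ (n + 2))) ≠ 0 := by
  have : Fact (1 < 2 ^ (n + 2)) := ⟨Nat.one_lt_two_pow (by omega)⟩
  exact one_ne_zero

lemma adj_T (v : W) : G.Adj v (T v) := by
  rw [G_adj]
  refine ⟨?_, Or.inl (Or.inl rfl)⟩
  obtain ⟨n, x⟩ := v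
  intro h
  rw [T_apply] at h
  have := eq_of_heq (Sigma.mk.inj h).2
  exact one_ne n (by simpa using this)

lemma T_iter (n : ℕ) (x : ZMod (2 ^ (n + 2))) (j : ℕ) : T^[j] ⟨n, x⟩ = ⟨n, x + j⟩ := by
  induction j with
  | zero => simp
  | succ j ih => rw [Function.iterate_succ_apply', ih, T_apply]; push_cast; rw [add_assoc]

def ch (v : W) (b : ℕ) : W := ⟨v.1 + 1, ((v.2.val + b * 2 ^ (v.1 + 2) : ℕ) : ZMod (2 ^ (v.1 + 1 + 2)))⟩

lemma P_ch (v : W) (b : ℕ) : P (ch v b) = v := by
  obtain ⟨n, x⟩ := v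
  simp only [ch, P, map_natCast]
  congr 1
  rw [Nat.cast_add, Nat.cast_mul, ZMod.natCast_self, mul_zero, add_zero, ZMod.natCast_zmod_val]

lemma adj_ch (v : W) (b : ℕ) : G.Adj v (ch v b) := by
  rw [G_adj]
  refine ⟨fun h => ?_, Or.inr (Or.inr (P_ch v b).symm)⟩
  have := congrArg Sigma.fst h
  simp [ch] at this

lemma ch_ne (v : W) : ch v 0 ≠ ch v 1 := by
  intro h
  have h1 := eq_of_heq (Sigma.mk.inj h).2
  have h2 := (ZMod.natCast_eq_natCast_iff' _ _ _).mp h1
  have h3 := ZMod.val_lt v.2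
  have h4 : 2 ^ (v.1 + 1 + 2) = 2 * 2 ^ (v.1 + 2) := by ring
  rw [h4, Nat.mod_eq_of_lt (by omega), Nat.mod_eq_of_lt (by omega)] at h2
  omega

lemma P_eq (v w : W) (h : v = P w) (hne : v ≠ w) : w = ch v 0 ∨ w = ch v 1 := by
  obtain ⟨m, y⟩ := w
  cases m with
  | zero => exact absurd h hne
  | succ m =>
    subst h
    have h1 : (red m y).val = y.val % 2 ^ (m + 2) := by
      conv_lhs => rw [← ZMod.natCast_zmod_val y, map_natCast, ZMod.val_natCast]
    have h3 := ZMod.val_lt y
    have h4 : 2 ^ (m + 1 + 2) = 2 * 2 ^ (m + 2) := by ring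
    have h5 := Nat.mod_add_div y.val (2 ^ (m + 2))
    have h6 : y.val / 2 ^ (m + 2) < 2 := Nat.div_lt_of_lt_mul (by omega)
    have h7 : ∀ b, y.val / 2 ^ (m + 2) = b → (⟨m + 1, y⟩ : W) = ch (P ⟨m + 1, y⟩) b := by
      intro b hb
      simp only [ch, P]
      congr 1
      rw [h1, ← hb, mul_comm, h5]
      exact (ZMod.natCast_zmod_val y).symm
    have h8 : ∀ q : ℕ, q < 2 → q = 0 ∨ q = 1 := fun q hq => by omega
    rcases h8 _ h6 with h | h
    · exact Or.inl (h7 0 h)
    · exact Or.inr (h7 1 h)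

lemma nb_sub (v w : W) (h : G.Adj v w) :
    w ∈ ({T v, T.symm v, P v, ch v 0, ch v 1} : Finset W) := by
  rw [G_adj] at h
  simp only [Finset.mem_insert, Finset.mem_singleton]
  rcases h with ⟨hne, (h | h) | (h | h)⟩
  · exact Or.inl h
  · exact Or.inr (Or.inr (Or.inl h))
  · exact Or.inr (Or.inl (by rw [h]; simp))
  · exact Or.inr (Or.inr (Or.inr (P_eq v w h hne)))

noncomputable instance : G.LocallyFinite := fun v =>
  Set.Finite.fintype ((Finset.finite_toSet _).subset (nb_sub v))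

lemma deg_le (v : W) : G.degree v ≤ 5 := by
  rw [← SimpleGraph.card_neighborFinset_eq_degree]
  refine le_trans (Finset.card_le_card (t := {T v, T.symm v, P v, ch v 0, ch v 1})
    fun w hw => nb_sub v w (by simpa using hw)) Finset.card_le_five

lemma deg_pos (v : W) : 0 < G.degree v := (G.degree_pos_iff_exists_adj v).mpr ⟨_, adj_T v⟩

lemma lev_T (v : W) : (T v).1 = v.1 := rfl

lemma lev_Ts (v : W) : (T.symm v).1 = v.1 := rfl

lemma lev_P (v : W) : (P v).1 = v.1 - 1 := by
  obtain ⟨n, x⟩ := v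
  cases n <;> rfl

lemma lev_ch (v : W) (b : ℕ) : (ch v b).1 = v.1 + 1 := rfl

lemma sum_le (v : W) (a : ℕ → ℝ) (ha : a v.1 ≤ a (v.1 - 1)) :
    ∑ z ∈ G.neighborFinset v, (a z.1 - a v.1) ≤ a (v.1 - 1) - a v.1 + 2 * (a (v.1 + 1) - a v.1) := by
  have h0 : ch v 0 ∈ G.neighborFinset v := by simpa using adj_ch v 0
  have h1 : ch v 1 ∈ (G.neighborFinset v).erase (ch v 0) :=
    Finset.mem_erase.mpr ⟨(ch_ne v).symm, by simpa using adj_ch v 1⟩
  rw [← Finset.add_sum_erase _ _ h0, ← Finset.add_sum_erase _ _ h1, lev_ch, lev_ch]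
  have h2 : ∑ z ∈ ((G.neighborFinset v).erase (ch v 0)).erase (ch v 1), (a z.1 - a v.1)
      ≤ ∑ z ∈ ((G.neighborFinset v).erase (ch v 0)).erase (ch v 1),
        (if z = P v then a (v.1 - 1) - a v.1 else 0) := by
    refine Finset.sum_le_sum fun z hz => ?_
    simp only [Finset.mem_erase, SimpleGraph.mem_neighborFinset] at hz
    have h3 := nb_sub v z hz.2.2
    simp only [Finset.mem_insert, Finset.mem_singleton] at h3
    split_ifs with h4
    · rw [h4, lev_P]
    · rcases h3 with h | h | h | h | h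
      · rw [h, lev_T, sub_self]
      · rw [h, lev_Ts, sub_self]
      · exact absurd h h4
      · exact absurd h hz.2.1
      · exact absurd h hz.1
  rw [Finset.sum_ite_eq'] at h2
  split_ifs at h2 <;> linarith

lemma conn : G.Connected := by
  have h1 : ∀ (j : ℕ) (v : W), G.Reachable v (T^[j] v) := by
    intro j v
    induction j with
    | zero => rfl
    | succ j ih => rw [Function.iterate_succ_apply']; exact ih.trans (adj_T _).reachable
  have h2 : ∀ (n : ℕ) (x : ZMod (2 ^ (n + 2))), G.Reachable ⟨0, 0⟩ ⟨n, x⟩ := by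
    intro n
    induction n with
    | zero =>
      intro x
      have := h1 x.val ⟨0, 0⟩
      rwa [T_iter, zero_add (x.val : ZMod (2 ^ (0 + 2))), ZMod.natCast_zmod_val] at this
    | succ n ih =>
      intro x
      refine (ih (red n x)).trans (SimpleGraph.Adj.reachable ?_)
      rw [G_adj]
      refine ⟨fun h => ?_, Or.inr (Or.inr rfl)⟩
      have := congrArg Sigma.fst h
      simp at this
  have : Nonempty W := ⟨⟨0, 0⟩⟩
  exact ⟨fun v w => (h2 v.1 v.2).symm.trans (h2 w.1 w.2)⟩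

lemma transient : IsTransient G := by
  intro x
  set a : ℕ → ℝ := fun n => (1 / 2) ^ (n - x.1) with ha
  have hanti : ∀ m n, m ≤ n → a n ≤ a m := fun m n h =>
    pow_le_pow_of_le_one (by norm_num) (by norm_num) (by omega)
  have hsup : ∀ y : W, a (y.1 - 1) - a y.1 + 2 * (a (y.1 + 1) - a y.1) ≤ 0 := by
    intro y
    simp only [ha]
    rcases le_or_gt y.1 x.1 with h | h
    · have h1 : y.1 - 1 - x.1 = 0 := by omega
      have h2 : y.1 - x.1 = 0 := by omega
      have h3 : (1 / 2 : ℝ) ^ (y.1 + 1 - x.1) ≤ 1 := pow_le_one₀ (by norm_num) (by norm_num)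
      rw [h1, h2, pow_zero]
      linarith
    · obtain ⟨m, hm⟩ : ∃ m, y.1 = x.1 + m + 1 := ⟨y.1 - x.1 - 1, by omega⟩
      have h1 : y.1 - 1 - x.1 = m := by omega
      have h2 : y.1 - x.1 = m + 1 := by omega
      have h3 : y.1 + 1 - x.1 = m + 2 := by omega
      rw [h1, h2, h3]
      ring_nf
      exact le_rfl
  have hle := hit_le G deg_pos x (fun y => a y.1) (fun y => by positivity) (by simp [ha])
    (fun y => (sum_le y a (hanti _ _ (by omega))).trans (hsup y))
  refine ⟨4 / 5, by norm_num, fun n => ?_⟩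
  have hd : (0:ℝ) < G.degree x := by exact_mod_cast deg_pos x
  have hd5 : (G.degree x : ℝ) ≤ 5 := by exact_mod_cast deg_le x
  have h1 := sum_le x a (hanti _ _ (by omega))
  have h2 : a (x.1 - 1) = 1 := by simp [ha]
  have h3 : a x.1 = 1 := by simp [ha]
  have h4 : a (x.1 + 1) = 1 / 2 := by simp [ha]
  rw [Finset.sum_sub_distrib, Finset.sum_const, SimpleGraph.card_neighborFinset_eq_degree,
    nsmul_eq_mul, h2, h3, h4] at h1
  have h5 : ∑ z ∈ G.neighborFinset x, hit G x n z ≤ ∑ z ∈ G.neighborFinset x, a z.1 :=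
    Finset.sum_le_sum fun z _ => hle n z
  rw [div_le_iff₀ hd]
  linarith

lemma const (f : W → ℝ) (hf : Harmonic G f) (hL : Lip G f) (v w : W) : f v = f w := by
  have h0 := H0_of G deg_pos hf
  have h1 := invariant G 5 deg_le T G_T adj_T (fun v => ⟨2 ^ (v.1 + 2), by positivity, by
    obtain ⟨n, x⟩ := v
    rw [T_iter, ZMod.natCast_self, add_zero]⟩) h0 hL
  set a : ℕ → ℝ := fun n => f ⟨n, 0⟩ with ha
  have h2 : ∀ v : W, f v = a v.1 := by
    rintro ⟨n, x⟩
    have h3 : ∀ j : ℕ, f (T^[j] ⟨n, 0⟩) = a n := by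
      intro j
      induction j with
      | zero => rfl
      | succ j ih => rw [Function.iterate_succ_apply', h1, ih]
    have := h3 x.val
    rwa [T_iter, zero_add, ZMod.natCast_zmod_val] at this
  have h4 : ∀ n, a (n - 1) = a n → a (n + 1) = a n := by
    intro n hn
    have h5 := h0 ⟨n, 0⟩
    simp only [h2] at h5
    have h6 := sum_le ⟨n, 0⟩ a hn.ge
    have h7 := sum_le ⟨n, 0⟩ (fun k => - a k) (by simp only; linarith)
    simp only [Finset.sum_sub_distrib, Finset.sum_neg_distrib] at h5 h6 h7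
    linarith
  have h5 : ∀ n, a (n + 1) = a n := by
    intro n
    induction n with
    | zero => exact h4 0 rfl
    | succ n ih => exact h4 (n + 1) ih.symm
  have h6 : ∀ n, a n = a 0 := by
    intro n
    induction n with
    | zero => rfl
    | succ n ih => rw [h5, ih]
  rw [h2, h2 w, h6, h6 w.1]

theorem result : ∃ (V : Type) (G : SimpleGraph V) (_ : G.LocallyFinite),
    Infinite V ∧ G.Connected ∧ (∀ x, G.degree x ≤ 5) ∧ IsTransient G ∧
      ∀ f : V → ℝ, Harmonic G f → Lip G f → ∀ x y, f x = f y :=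
  ⟨W, G, inferInstance, Infinite.of_injective (fun n : ℕ => (⟨n, 0⟩ : W))
    (fun _ _ h => congrArg Sigma.fst h), conn, deg_le, transient, const⟩

end Pool.Agent.Results.MP_469b0e_pr.Transient
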